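import Pool.Agent.SetIntBlocked.Real

/-!
# Set intersection queries: the space bound for memories read in blocks
-/

namespace Pool.Agent.Results.MP_f326ae_lc.BlockedReads

open Pool.Agent.SetIntBlocked

/-- The space `S = s B` of a memory of `s` blocks of `B` words with indivisible elements that
serves all queries of all families of total size `N` in time `C (T + op)` is at least
`N ^ (2 - K / B) / (K T (log₂ N) ^ 2)`, where `K` depends only on `C`. -/
theorem result :
    ∀ C : ℕ, ∃ K : ℝ, 0 < K ∧ ∀ N T B s : ℕ, 2 ≤ N → 1 ≤ T → 1 ≤ B → Solvable N C T B s →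
      (N : ℝ) ^ 2 ≤ K * (N : ℝ) ^ (K / B) * T * (Real.logb 2 N) ^ 2 * (s * B) := by
  intro C
  refine ⟨KK (C + 1), by unfold KK; positivity, fun N T B s hN hT hB H => ?_⟩
  exact real_bound (H.mono (Nat.le_succ C)) hN (by omega) hT hB

/-- The same for blocks of at least `ε log N / log log N` words. -/
theorem polylog_form (C : ℕ) (ε : ℝ) (hε : 0 < ε) : ∃ K c : ℝ, 0 < K ∧ ∀ N T B s : ℕ,
      3 ≤ N → 1 ≤ T → ε * Real.log N ≤ B * Real.log (Real.log N) → Solvable N C T B s →
      (N : ℝ) ^ 2 ≤ K * T * (Real.log N) ^ c * (s * B) := by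
  refine ⟨KK (C + 1) / Real.log 2 ^ 2, KK (C + 1) / ε + 2, ?_, fun N T B s hN hT hB H => ?_⟩
  · have : 0 < Real.log 2 := Real.log_pos (by norm_num)
    unfold KK
    positivity
  · exact polylog_bound (by omega) hε hN hT hB (H.mono (Nat.le_succ C))

end Pool.Agent.Results.MP_f326ae_lc.BlockedReads
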