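import Pool.Agent.SetInt.Digest

/-!
# Set intersection queries: `S ≥ N² / (T polylog N)` when cells are light for most pairs
-/

namespace Pool.Agent.Results.MP_f326ae_lc.LightCells

open Pool.Agent.SetInt

/-- First part: the lower bound in terms of the number of heavy probes. Second part: the lower
bound for structures in which every cell depends arbitrarily on at most `q` of the sets and on
digests of `D` bits of all the other sets. -/
theorem result :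
    (∀ S w N C T D H : ℕ, 3 ≤ N → N ^ 2 ≤ 2 ^ w → 1 ≤ T → 1 ≤ C → 1 ≤ D → 1 ≤ H →
      ∀ 𝒟 : DataStructure S w, 𝒟.Solves N C T →
      (∀ (m : ℕ) (F : Fin m → Finset (Fin (2 ^ w))), m ≤ N → ∑ i, (F i).card = N →
        (𝒟.heavy D F).card ≤ H * S) →
      N ^ 2 ≤ 2 * 10 ^ 10 * (C ^ 2 * D ^ 2 * w) * (H * S * T)) ∧
    (∀ S w N C T D q : ℕ, 3 ≤ N → N ^ 2 ≤ 2 ^ w → 1 ≤ T → 1 ≤ C → 1 ≤ q →
      ∀ 𝒟 : DataStructure S w, 𝒟.Solves N C T → 𝒟.Local N q D →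
      N ^ 2 ≤ 2 * 10 ^ 10 * (C ^ 2 * (D + w) ^ 2 * w) * (q ^ 2 * S * T)) :=
  ⟨fun _ _ _ _ _ _ _ hN hw hT hC hD hH 𝒟 h𝒟 h => main hN hw hT hC hD hH 𝒟 h𝒟 h,
    fun _ _ _ _ _ _ _ hN hw hT hC hq 𝒟 h𝒟 h => main_local hN hw hT hC hq 𝒟 h𝒟 h⟩

end Pool.Agent.Results.MP_f326ae_lc.LightCells
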