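import Pool.Agent.SetIntLocal.Main

/-!
# Set intersection queries: the space bound for local decoding with arbitrary cell contents

The contents of the `s` cells (of `w` bits each) and a free directory of `w` bits are arbitrary
functions of the whole family. For the query `{i, j}` there are `A` nodes for each of the two
ordered pairs; the cell read at a node and the elements decoded from its content are computed, by
arbitrary functions, from the directory, the indices and one of the two sets. Each element of the
answer must be decoded at some node, that is, from the content of a single cell.
-/

namespace Pool.Agent.Results.MP_f326ae_lc.LocalDecoding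

open Pool.Agent.SetIntLocal

/-- A structure of this kind that serves the queries with at most `T` answers, for all families of
total size `N`, has `s ≥ N ^ 2 * T / (10 ^ 16 * (A * (B + w) * w) ^ 2)` cells. -/
theorem result :
    ∀ N T A B s w : ℕ, 1 ≤ T → 1 ≤ A → 1 ≤ B → 1 ≤ w → 10 ^ 8 * (A * (B + w) * w) ≤ N →
      N ^ 2 ≤ 2 ^ w → Solvable N T A B s w →
      N ^ 2 * T ≤ 10 ^ 16 * (A * (B + w) * w) ^ 2 * s :=
  fun N T A B s w hT hA hB hw1 hN hw H => main N T A B s w hT hA hB hw1 hN hw H

end Pool.Agent.Results.MP_f326ae_lc.LocalDecoding
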