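import Pool.Agent.SetIntOneSided.Bound
import Pool.Agent.SetIntOneSided.Upper

/-!
# Set intersection queries: the space bound for one-sided address lists

Elements are indivisible; the contents of the `S` cells (at most `B` elements each) and the state of
a free directory (one of `D ≤ 2 ^ (N / 100)` states) are arbitrary functions of the whole family; in
the query `{i, j}` the cells to be read are computed, by arbitrary functions, from the directory and
one of the two sets at a time.
-/

namespace Pool.Agent.Results.MP_f326ae_lc.OneSidedReads

open Pool.Agent.SetIntOneSided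

/-- A structure of this kind that serves all queries of all families of total size `N` in time
`C (T + op)` has `S ≥ N ^ 2 / (10 ^ 11 C ^ 2 B ^ 3 T (log₂ N + 1) ^ 6)`, for every `T`. -/
theorem result :
    ∀ N D C T B S : ℕ, 2 ≤ N → 1 ≤ C → 1 ≤ T → 1 ≤ B → D ≤ 2 ^ (N / 100) →
      Solvable N D C T B S →
      N ^ 2 ≤ 10 ^ 11 * C ^ 2 * B ^ 3 * T * (Nat.log 2 N + 1) ^ 6 * S :=
  fun _ _ _ _ _ _ hN hC hT hB hD H => nat_bound hN hC hT hB hD H

/-- The model contains the standard structure (tables for pairs of sets with more than `T`
elements, direct addressing for the others), which has the matching space `N ^ 2 / T + N + 1`, up to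
powers of `log N`. -/
theorem matching_structure (N T : ℕ) (hN : 1 ≤ N) (hT : 1 ≤ T) :
    Solvable N N 1 T (6 * (Nat.log 2 N + 1)) (N + (N ^ 2 / T + 1)) :=
  upper N T hN hT

end Pool.Agent.Results.MP_f326ae_lc.OneSidedReads
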